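import Pool.Agent.T9h90.SP.Spec

/-!
# Project SP, piece DI: the dichotomy
-/

set_option autoImplicit false

namespace Pool.Agent.T9h22.SP

open Pool.Agent.Helper617.RM Pool.Agent.T9h90.SP

universe u

section

variable {N : L2Structure.{u}} [IsModelRCA0 N] {f : N.M → N.M → Bool}

theorem copy_mono {H H' : Set N.M} (h : H' ⊆ H) {p : Sep} {x : ℕ → N.M}
    (hx : Copy f H' p x) : Copy f H p x :=
  ⟨fun i hi => h (hx.1 i hi), hx.2⟩

theorem nc_mono {H H' : Set N.M} (h : H' ⊆ H) (c : Bool) (n : ℕ) (x : ℕ → N.M) :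
    Nc f c H' n x ⊆ Nc f c H n x :=
  fun _ hw => ⟨h hw.1, hw.2⟩

theorem unb_mono {A B : Set N.M} (h : A ⊆ B) (hA : Unb A) : Unb B := fun b => by
  obtain ⟨y, hy, hb⟩ := hA b
  exact ⟨y, h hy, hb⟩

theorem no_mono {H H' : Set N.M} (h : H' ⊆ H) {c : Bool} {p : Sep} (hn : No f H c p) :
    No f H' c p :=
  fun x hx hu => hn x (copy_mono h hx) (unb_mono (nc_mono h c _ x) hu)

theorem exists_no {H : Set N.M} {c : Bool} {p : Sep} (h : ¬ Str f H c p) :
    ∃ H' ∈ N.Sets, H' ⊆ H ∧ Unb H' ∧ No f H' c p := by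
  by_contra hcon
  apply h
  intro H' h1 h2 h3
  by_contra h4
  exact hcon ⟨H', h1, h2, h3, fun x hx hu => h4 ⟨x, hx, hu⟩⟩

theorem str_re {H : Set N.M} {c : Bool} {p : Sep} (h : Str f H c p) : Re f H p := by
  intro H' h1 h2 h3
  obtain ⟨x, hx, -⟩ := h H' h1 h2 h3
  exact ⟨x, hx⟩

theorem size_pos (p : Sep) : 0 < p.size := by
  induction p with
  | one => exact Nat.one_pos
  | node c a b iha ihb =>
    show 0 < a.size + b.size
    omega

end

theorem di (hCL : S_CL.{u}) (hHM : S_HM.{u}) (hLT : S_LT.{u}) : S_DI.{u} := by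
  classical
  intro N _ f hf hB2 hBad
  by_contra hcon
  push Not at hcon
  obtain ⟨⟨a0, ha0, hs0⟩, h2⟩ := hcon
  obtain ⟨H1, hH1, -, hU1, hN1⟩ := exists_no hs0
  obtain ⟨b0, hb0, hs1⟩ := h2 H1 hH1 hU1
  obtain ⟨H2, hH2, hH21, hU2, hN2⟩ := exists_no hs1
  have hN1' := no_mono hH21 hN1
  -- the minimal counterexample
  have hex : ∃ m : ℕ, ∃ H3 ∈ N.Sets, H3 ⊆ H2 ∧ Unb H3 ∧ ∃ (c : Bool) (a : Sep),
      Spine a ∧ a.size = m ∧ No f H3 c a :=
    ⟨a0.size, H2, hH2, fun _ h => h, hU2, true, a0, ha0, rfl, hN1'⟩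
  obtain ⟨m, ⟨H3, hH3, hH32, hU3, c, a, ha, ham, hNa⟩, hmin⟩ :
      ∃ m : ℕ, (∃ H3 ∈ N.Sets, H3 ⊆ H2 ∧ Unb H3 ∧ ∃ (c : Bool) (a : Sep),
        Spine a ∧ a.size = m ∧ No f H3 c a) ∧ ∀ l < m, ¬ ∃ H3 ∈ N.Sets, H3 ⊆ H2 ∧ Unb H3 ∧
          ∃ (c : Bool) (a : Sep), Spine a ∧ a.size = l ∧ No f H3 c a :=
    ⟨Nat.find hex, Nat.find_spec hex, fun l hl => Nat.find_min hex hl⟩
  have hstr : ∀ (e : Bool) (s : Sep), Spine s → s.size < m → Str f H3 e s := by
    intro e s hs hsm
    by_contra hcon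
    obtain ⟨H', h1, h3, h4, h5⟩ := exists_no hcon
    exact hmin _ hsm ⟨H', h1, fun _ h => hH32 (h3 h), h4, e, s, hs, rfl, h5⟩
  cases ha with
  | one =>
    -- every point of `H3` has colour `!c` to almost all of `H3`
    have hall : ∀ x ∈ H3, ∃ b, ∀ w ∈ H3, b ≤ w → f x w = !c := by
      intro x hx
      have h1 := hNa (fun _ => x) ⟨fun i _ => hx, fun i j hij hj => by
        have : j < 1 := hj
        omega⟩
      unfold Unb at h1
      push Not at h1
      obtain ⟨b, hb⟩ := h1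
      obtain ⟨y, hy, hby⟩ := hU3 (max b x)
      refine ⟨y, fun w hw hyw => ?_⟩
      by_contra hne
      have hfc : f x w = c := by
        cases hfx : f x w <;> cases c <;> simp_all
      have hxw : x < w := lt_of_lt_of_le (lt_of_le_of_lt (le_max_right b x) hby) hyw
      have hbw : b < w := lt_of_lt_of_le (lt_of_le_of_lt (le_max_left b x) hby) hyw
      have h5 := hb w ⟨hw, fun i _ => ⟨hxw, hfc⟩⟩
      exact absurd hbw (not_lt.mpr h5)
    obtain ⟨H', h1, h3, h4, h5⟩ := hHM N f hf hB2 (!c) H3 hH3 hU3 hall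
    exact hBad H' h1 h4 (!c) h5
  | node d a' ha' =>
    have hsz : (Sep.node d .one a').size = 1 + a'.size := rfl
    have ha'm : a'.size < m := by
      rw [← ham, hsz]
      omega
    have h1m : Sep.one.size < m := by
      have h1 : Sep.one.size = 1 := rfl
      have h2 := size_pos a'
      rw [← ham, hsz, h1]
      omega
    by_cases hdc : d = c
    · subst hdc
      have h1 := (hCL N f hf H3 d .one a' (hstr d .one Spine.one h1m)).2 (hstr d a' ha' ha'm)
      obtain ⟨x, hx, hu⟩ := h1 H3 hH3 (fun _ h => h) hU3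
      exact hNa x hx hu
    · have hd : d = !c := by
        cases d <;> cases c <;> simp_all
      subst hd
      obtain ⟨b, hb, hNb⟩ : ∃ b, Spine b ∧ No f H3 (!c) b := by
        cases c with
        | true => exact ⟨b0, hb0, no_mono hH32 hN2⟩
        | false => exact ⟨a0, ha0, no_mono hH32 hN1'⟩
      have hre : ∀ s, Spine s → Re f H3 (s.infl a') := by
        intro s hs
        induction hs with
        | one => exact str_re (hstr c a' ha' ha'm)
        | node e s hs ih =>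
          exact (hCL N f hf H3 e a' (s.infl a') (hstr e a' ha' ha'm)).1 ih
      exact hLT N f hf hB2 hBad c H3 hH3 hU3 b a' hNb hNa (hre b hb)

end Pool.Agent.T9h22.SP
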